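import Pool.Agent.Q253.FC.Sets

/-!
# Polygons
-/

set_option autoImplicit false

namespace Pool.Agent.Q253.FC

open MeasureTheory Complex

/-- the convex polygon with the vertices `a`, `b` (real), `m ± h i` and `n ± h i` -/
def hexagon (a b m n h : ℝ) : Set ℂ :=
  convexHull ℝ {⟨a, 0⟩, ⟨b, 0⟩, ⟨m, h⟩, ⟨n, h⟩, ⟨m, -h⟩, ⟨n, -h⟩}

theorem slice {C : Set ℂ} (hC : Convex ℝ C) {a b m n h x y k : ℝ} (va : (⟨a, 0⟩ : ℂ) ∈ C)
    (vb : (⟨b, 0⟩ : ℂ) ∈ C) (vm : (⟨m, k * h⟩ : ℂ) ∈ C) (vn : (⟨n, k * h⟩ : ℂ) ∈ C) (hh : 0 < h)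
    (h0 : 0 ≤ y) (h1 : y ≤ h) (h2 : (h - y) * a + y * m ≤ h * x)
    (h3 : h * x ≤ (h - y) * b + y * n) : (⟨x, k * y⟩ : ℂ) ∈ C := by
  obtain ⟨u, hu0, hu1, hu⟩ : ∃ u : ℝ, 0 ≤ u ∧ u ≤ 1 ∧
      h * x = (1 - u) * ((h - y) * a + y * m) + u * ((h - y) * b + y * n) := by
    rcases eq_or_lt_of_le (h2.trans h3) with h4 | h4
    · exact ⟨0, le_refl _, zero_le_one, by linarith⟩
    · refine ⟨(h * x - ((h - y) * a + y * m)) /
        ((h - y) * b + y * n - ((h - y) * a + y * m)), ?_, ?_, ?_⟩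
      · exact div_nonneg (by linarith) (by linarith)
      · rw [div_le_one (by linarith)]
        linarith
      · have h5 : (h - y) * b + y * n - ((h - y) * a + y * m) ≠ 0 := by
          have : 0 < (h - y) * b + y * n - ((h - y) * a + y * m) := by linarith
          exact this.ne'
        field_simp
        ring
  have p0 : (⟨(1 - u) * a + u * b, 0⟩ : ℂ) ∈ C := by
    have h4 := hC va vb (sub_nonneg.2 hu1) hu0 (by ring)
    convert h4 using 1
    apply Complex.ext <;> simp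
  have p1 : (⟨(1 - u) * m + u * n, k * h⟩ : ℂ) ∈ C := by
    have h4 := hC vm vn (sub_nonneg.2 hu1) hu0 (by ring)
    convert h4 using 1
    apply Complex.ext
    · simp
    · simp
      ring
  have hl : y / h ≤ 1 := by rw [div_le_one hh]; exact h1
  have h4 := hC p0 p1 (sub_nonneg.2 hl) (div_nonneg h0 hh.le) (by ring)
  convert h4 using 1
  apply Complex.ext
  · simp
    have e : x = h * x / h := by field_simp
    rw [e, hu]
    field_simp
    ring
  · simp
    field_simp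

/-- The set of the first coefficients is a polygon. -/
theorem coefSet_eq {p q : ℕ} {a b m n h : ℝ} (hh : 0 < h) (va : (⟨a, 0⟩ : ℂ) ∈ coefSet p q)
    (vb : (⟨b, 0⟩ : ℂ) ∈ coefSet p q) (vm : (⟨m, h⟩ : ℂ) ∈ coefSet p q)
    (vn : (⟨n, h⟩ : ℂ) ∈ coefSet p q)
    (H : ∀ c ∈ coefSet p q, c.im ≤ h ∧ (h - c.im) * a + c.im * m ≤ h * c.re ∧
      h * c.re ≤ (h - c.im) * b + c.im * n) : coefSet p q = hexagon a b m n h := by
  apply Set.Subset.antisymm
  · intro c hc
    have v : ∀ z ∈ ({⟨a, 0⟩, ⟨b, 0⟩, ⟨m, h⟩, ⟨n, h⟩, ⟨m, -h⟩, ⟨n, -h⟩} : Set ℂ),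
        z ∈ hexagon a b m n h := fun z hz => subset_convexHull ℝ _ hz
    rcases le_total 0 c.im with h0 | h0
    · obtain ⟨h1, h2, h3⟩ := H c hc
      have := slice (k := 1) (convex_convexHull ℝ
        ({⟨a, 0⟩, ⟨b, 0⟩, ⟨m, h⟩, ⟨n, h⟩, ⟨m, -h⟩, ⟨n, -h⟩} : Set ℂ)) (v _ (by simp))
        (v _ (by simp)) (v _ (by simp)) (v _ (by simp)) hh h0 h1 h2 h3
      unfold hexagon
      simpa using this
    · obtain ⟨h1, h2, h3⟩ := H _ (coefSet_conj hc)
      simp only [Complex.conj_im, Complex.conj_re] at h1 h2 h3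
      have := slice (k := -1) (convex_convexHull ℝ
        ({⟨a, 0⟩, ⟨b, 0⟩, ⟨m, h⟩, ⟨n, h⟩, ⟨m, -h⟩, ⟨n, -h⟩} : Set ℂ)) (v _ (by simp))
        (v _ (by simp)) (v _ (by simp)) (v _ (by simp)) hh (by linarith : 0 ≤ -c.im) h1 h2 h3
      unfold hexagon
      simpa using this
  · refine convexHull_min ?_ coefSet_convex
    intro z hz
    simp only [Set.mem_insert_iff, Set.mem_singleton_iff] at hz
    rcases hz with rfl | rfl | rfl | rfl | rfl | rfl
    · exact va
    · exact vb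
    · exact vm
    · exact vn
    · have := coefSet_conj vm
      convert this using 1
      apply Complex.ext <;> simp
    · have := coefSet_conj vn
      convert this using 1
      apply Complex.ext <;> simp

theorem mem_of_sq {p q : ℕ} {c : ℂ} (hc : c ∈ coefSet p q) {K J D : ℝ} (hK : 0 < K) (hD : 0 < D)
    (h : ((K : ℂ) * c + J) ^ 2 = -(D : ℂ)) : (⟨-J / K, Real.sqrt D / K⟩ : ℂ) ∈ coefSet p q := by
  have h1 := congrArg Complex.re h
  have h2 := congrArg Complex.im h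
  rw [sq] at h1 h2
  simp only [Complex.mul_re, Complex.add_re, Complex.mul_im, Complex.add_im, Complex.ofReal_re,
    Complex.ofReal_im, Complex.neg_re, Complex.neg_im, zero_mul, sub_zero, add_zero] at h1 h2
  have h3 : c.im ≠ 0 := by
    intro h0
    rw [h0] at h1
    nlinarith [sq_nonneg (K * c.re + J)]
  have h4 : K * c.re + J = 0 := by
    have h5 : (K * c.re + J) * (2 * K * c.im) = 0 := by linarith
    rcases mul_eq_zero.1 h5 with h6 | h6
    · exact h6
    · exact absurd h6 (mul_ne_zero (by positivity) h3)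
  have h5 : c.re = -J / K := by
    field_simp
    linarith
  have h6 : (K * c.im) ^ 2 = D := by
    rw [h4] at h1
    linarith
  have h7 : Real.sqrt D = K * |c.im| := by
    rw [← h6, Real.sqrt_sq_eq_abs, abs_mul, abs_of_pos hK]
  have h8 : Real.sqrt D / K = |c.im| := by
    rw [h7]
    field_simp
  rw [h8, ← h5]
  rcases abs_cases c.im with ⟨h9, -⟩ | ⟨h9, -⟩
  · rw [h9]
    exact hc
  · rw [h9]
    exact coefSet_conj hc

theorem coefSet_list {p q N : ℕ} [NeZero N] (L : List ℕ) (hne : L ≠ [])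
    (hnd : (L.map (Nat.cast : ℕ → ZMod N)).Nodup)
    (hp : ((L.map (Nat.cast : ℕ → ZMod N)).toFinset).image (fun a => (p : ZMod N) * a) =
      (L.map (Nat.cast : ℕ → ZMod N)).toFinset)
    (hq : ((L.map (Nat.cast : ℕ → ZMod N)).toFinset).image (fun a => (q : ZMod N) * a) =
      (L.map (Nat.cast : ℕ → ZMod N)).toFinset) :
    (L.length : ℂ)⁻¹ * (L.map fun k => (ZMod.stdAddChar (1 : ZMod N) : ℂ) ^ k).sum ∈
      coefSet p q := by
  have h := coefSet_orb (p := p) (q := q) (S := (L.map (Nat.cast : ℕ → ZMod N)).toFinset)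
    (by simpa using hne) hp hq
  rw [List.toFinset_card_of_nodup hnd, List.sum_toFinset _ hnd, List.length_map,
    List.map_map] at h
  have e : (L.map fun k => (ZMod.stdAddChar (1 : ZMod N) : ℂ) ^ k) =
      L.map ((fun a => (ZMod.stdAddChar a : ℂ)) ∘ (Nat.cast : ℕ → ZMod N)) := by
    apply List.map_congr_left
    intro k _
    simp only [Function.comp]
    rw [Pool.Agent.Y315.FC.char_pow]
  rw [e]
  exact h

theorem pow_N {N : ℕ} [NeZero N] : (ZMod.stdAddChar (1 : ZMod N) : ℂ) ^ N = 1 := by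
  rw [← Pool.Agent.Y315.FC.char_pow]
  simp

theorem pow_ne {N : ℕ} [NeZero N] {k : ℕ} (hk : (k : ZMod N) ≠ 0) :
    (ZMod.stdAddChar (1 : ZMod N) : ℂ) ^ k ≠ 1 := by
  intro h
  rw [← Pool.Agent.Y315.FC.char_pow] at h
  have h3 : (ZMod.stdAddChar (k : ZMod N) : ℂ) = ZMod.stdAddChar (0 : ZMod N) := by
    rw [AddChar.map_zero_eq_one]; exact h
  exact hk (ZMod.injective_stdAddChar h3)

end Pool.Agent.Q253.FC
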