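import Pool.Agent.Q253.FC.Ring

/-!
# Integrals of trigonometric polynomials against measures invariant under `×p` and `×q`
-/

set_option autoImplicit false

namespace Pool.Agent.Q253.FC

open MeasureTheory Complex

/-- `n` divided by all (at most `f`) factors `p` and `q` -/
def core (p q : ℕ) : ℕ → ℕ → ℕ
  | 0, n => n
  | f + 1, n => if n % p = 0 then core p q f (n / p) else if n % q = 0 then core p q f (n / q) else n

theorem core_le (p q f n : ℕ) : core p q f n ≤ n := by
  induction f generalizing n with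
  | zero => simp [core]
  | succ f ih =>
    simp only [core]
    split_ifs
    · exact (ih _).trans (Nat.div_le_self _ _)
    · exact (ih _).trans (Nat.div_le_self _ _)
    · exact le_refl _

theorem core_eq {p q : ℕ} {c : ℕ → ℂ} (h2 : ∀ n, c (p * n) = c n) (h3 : ∀ n, c (q * n) = c n)
    (f n : ℕ) : c (core p q f n) = c n := by
  induction f generalizing n with
  | zero => simp [core]
  | succ f ih =>
    simp only [core]
    split_ifs with a b
    · rw [ih, ← h2 (n / p), Nat.mul_div_cancel' (Nat.dvd_of_mod_eq_zero a)]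
    · rw [ih, ← h3 (n / q), Nat.mul_div_cancel' (Nat.dvd_of_mod_eq_zero b)]
    · rfl

/-- sum of the coefficients with indices in the class of `m` -/
def cs (p q : ℕ) (l : List (ℤ × ℤ)) (i m : ℕ) : ℤ × ℤ :=
  match l with
  | [] => (0, 0)
  | a :: l => addp (if core p q 8 i = m then a else (0, 0)) (cs p q l (i + 1) m)

/-- `∑ φ (l_j) c (i + j)` -/
noncomputable def Lam (d : ℕ) (c : ℕ → ℂ) : List (ℤ × ℤ) → ℕ → ℂ
  | [], _ => 0
  | a :: l, i => ph d a * c i + Lam d c l (i + 1)

variable {d : ℕ}

theorem Lam_eq {p q : ℕ} {c : ℕ → ℂ} (h2 : ∀ n, c (p * n) = c n) (h3 : ∀ n, c (q * n) = c n)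
    (W : ℕ) (l : List (ℤ × ℤ)) (i : ℕ) (hi : i + l.length ≤ W) :
    Lam d c l i = ∑ m ∈ Finset.range W, ph d (cs p q l i m) * c m := by
  induction l generalizing i with
  | nil => simp [Lam, cs, ph_zero]
  | cons a l ih =>
    simp only [List.length_cons] at hi
    simp only [Lam, cs, ph_add]
    rw [ih (i + 1) (by omega)]
    have h : ∀ m, (ph d (if core p q 8 i = m then a else (0, 0)) + ph d (cs p q l (i + 1) m)) *
        c m = (if core p q 8 i = m then ph d a * c m else 0) + ph d (cs p q l (i + 1) m) * c m := by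
      intro m
      split_ifs
      · ring
      · rw [ph_zero]; ring
    rw [Finset.sum_congr rfl fun m _ => h m, Finset.sum_add_distrib]
    congr 1
    rw [Finset.sum_ite_eq, if_pos, core_eq h2 h3]
    have := core_le p q 8 i
    simp only [Finset.mem_range]
    omega

/-- check of the class sums -/
def chk (p q : ℕ) (P : List (ℤ × ℤ)) (t : ℤ × ℤ) (W : ℕ) : Bool :=
  (List.range W).all fun m => decide (cs p q P 1 m = if m = 1 then t else (0, 0))

theorem Lam_chk {p q : ℕ} {c : ℕ → ℂ} (h2 : ∀ n, c (p * n) = c n) (h3 : ∀ n, c (q * n) = c n)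
    {W : ℕ} (hW : 2 ≤ W) {P : List (ℤ × ℤ)} {t : ℤ × ℤ} (hl : 1 + P.length ≤ W)
    (h : chk p q P t W = true) : Lam d c P 1 = ph d t * c 1 := by
  rw [Lam_eq h2 h3 W P 1 hl]
  unfold chk at h
  rw [List.all_eq_true] at h
  have h' : ∀ m ∈ Finset.range W, ph d (cs p q P 1 m) * c m =
      if m = 1 then ph d t * c 1 else 0 := by
    intro m hm
    have := h m (List.mem_range.mpr (Finset.mem_range.mp hm))
    rw [decide_eq_true_eq] at this
    rw [this]
    split_ifs with e
    · rw [e]
    · rw [ph_zero]; ring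
  rw [Finset.sum_congr rfl h', Finset.sum_ite_eq', if_pos (Finset.mem_range.mpr (by omega))]

/-- the Fourier coefficient of index `n` -/
noncomputable def co (μ : Measure UnitAddCircle) (n : ℕ) : ℂ := ∫ x, fourier (n : ℤ) x ∂μ

theorem four_pow (x : UnitAddCircle) (n : ℕ) :
    (fourier (n : ℤ) x : ℂ) = (fourier 1 x : ℂ) ^ n := by
  rw [fourier_apply, fourier_one, natCast_zsmul, AddCircle.toCircle_nsmul]
  simp

theorem norm_four (x : UnitAddCircle) : ‖(fourier 1 x : ℂ)‖ = 1 := by
  rw [fourier_one]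
  exact Circle.norm_coe _

theorem co_mul {μ : Measure UnitAddCircle} {p : ℕ}
    (h : MeasurePreserving (fun x : UnitAddCircle => p • x) μ μ) (n : ℕ) :
    co μ (p * n) = co μ n := by
  unfold co
  conv_rhs => rw [← h.map_eq]
  rw [integral_map h.measurable.aemeasurable]
  · refine integral_congr_ae (Filter.Eventually.of_forall fun x => ?_)
    simp only [fourier_apply]
    congr 2
    push_cast
    rw [mul_comm, mul_smul, natCast_zsmul, natCast_zsmul, natCast_zsmul]
  · exact (map_continuous _).aestronglyMeasurable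

theorem int_c {μ : Measure UnitAddCircle} [IsFiniteMeasure μ] {f : UnitAddCircle → ℂ}
    (hf : Continuous f) : Integrable f μ :=
  hf.integrable_of_hasCompactSupport (HasCompactSupport.of_compactSpace _)

theorem cont_ev (l : List (ℤ × ℤ)) :
    Continuous fun x : UnitAddCircle => ev d (fourier 1 x : ℂ) l := by
  induction l with
  | nil => simp only [ev]; exact continuous_const
  | cons a l ih => simp only [ev]; exact continuous_const.add ((map_continuous _).mul ih)

theorem int_ev (μ : Measure UnitAddCircle) [IsFiniteMeasure μ] (l : List (ℤ × ℤ)) (i : ℕ) :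
    ∫ x, (fourier 1 x : ℂ) ^ i * ev d (fourier 1 x : ℂ) l ∂μ = Lam d (co μ) l i := by
  induction l generalizing i with
  | nil => simp [ev, Lam]
  | cons a l ih =>
    simp only [ev, Lam]
    rw [← ih (i + 1)]
    have h : ∀ x : UnitAddCircle, (fourier 1 x : ℂ) ^ i * (ph d a + (fourier 1 x : ℂ) *
        ev d (fourier 1 x : ℂ) l) = ph d a * (fourier (i : ℤ) x : ℂ) +
        (fourier 1 x : ℂ) ^ (i + 1) * ev d (fourier 1 x : ℂ) l := by
      intro x
      rw [four_pow]
      ring
    rw [integral_congr_ae (Filter.Eventually.of_forall h), integral_add, integral_const_mul]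
    · rfl
    · exact int_c (continuous_const.mul (map_continuous _))
    · exact int_c (((map_continuous _).pow _).mul (cont_ev l))

theorem int_tv (μ : Measure UnitAddCircle) [IsProbabilityMeasure μ] (a : ℤ)
    (l : List (ℤ × ℤ)) :
    ∫ x, tv d (fourier 1 x : ℂ) a l ∂μ = a + 2 * (Lam d (co μ) l 1).re := by
  unfold tv
  have hc : Continuous fun x : UnitAddCircle => (fourier 1 x : ℂ) * ev d (fourier 1 x : ℂ) l :=
    (map_continuous _).mul (cont_ev l)
  have hi := int_c (μ := μ) hc
  have hre : Integrable (fun x : UnitAddCircle =>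
      ((fourier 1 x : ℂ) * ev d (fourier 1 x : ℂ) l).re) μ := hi.re
  rw [integral_add (integrable_const _) (hre.const_mul 2), integral_const_mul]
  have h1 : ∫ x, ((fourier 1 x : ℂ) * ev d (fourier 1 x : ℂ) l).re ∂μ =
      (∫ x, (fourier 1 x : ℂ) * ev d (fourier 1 x : ℂ) l ∂μ).re := integral_re hi
  rw [h1]
  have h2 := int_ev (d := d) μ l 1
  simp only [pow_one] at h2
  rw [h2]
  simp

/-- check of a certificate -/
def ok (p q d r n : ℕ) (G S E : List (ℤ × ℤ)) (e0 p0 : ℤ) (t : ℤ × ℤ) (K : ℤ) : Bool :=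
  let F := prod d G S E e0
  let P := F.drop (n + 1)
  decide (0 < K) && decide (d ≤ r * r) && decide (2 * l1 r E ≤ e0) &&
    decide (S.length = E.length + 1) && decide (1 ≤ n) && decide (G.length + E.length = n + 1) &&
    decide (1 ≤ G.length) && decide (P.length = n) && decide (F = full (p0 * K) P) &&
    chk p q P (K * t.1, K * t.2) (n + 1)

/-- **The inequality for the first coefficient given by a certificate.** -/
theorem ineq {p q d r n : ℕ} {G S E : List (ℤ × ℤ)} {e0 p0 : ℤ} {t : ℤ × ℤ} {K : ℤ}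
    (h : ok p q d r n G S E e0 p0 t K = true) {μ : Measure UnitAddCircle} [IsProbabilityMeasure μ]
    (h2 : MeasurePreserving (fun x : UnitAddCircle => p • x) μ μ)
    (h3 : MeasurePreserving (fun x : UnitAddCircle => q • x) μ μ) :
    0 ≤ p0 + 2 * (ph d t * ∫ x, (fourier 1 x : ℂ) ∂μ).re := by
  unfold ok at h
  simp only [Bool.and_eq_true, decide_eq_true_eq] at h
  obtain ⟨⟨⟨⟨⟨⟨⟨⟨⟨hK, hr⟩, hE⟩, hS⟩, hn⟩, hG⟩, hG1⟩, hP⟩, hF⟩, hc⟩ := h
  set P := (prod d G S E e0).drop (n + 1) with hPdef
  have hpos : ∀ z : ℂ, ‖z‖ = 1 → 0 ≤ tv d z (p0 * K) P := fun z hz =>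
    cert (n := n) (dg := G.length - 1) hr hF hE hP (by omega) hS (by omega) hz
  have key : 0 ≤ ((p0 * K : ℤ) : ℝ) + 2 * (ph d (K * t.1, K * t.2) * co μ 1).re := by
    rw [← Lam_chk (fun n => co_mul h2 n) (fun n => co_mul h3 n) (by omega) (by omega) hc,
      ← int_tv]
    exact integral_nonneg fun x => hpos _ (norm_four x)
  have hco : co μ 1 = ∫ x, (fourier 1 x : ℂ) ∂μ := by
    unfold co
    simp
  rw [hco] at key
  set c := ∫ x, (fourier 1 x : ℂ) ∂μ
  have e1 : ph d (K * t.1, K * t.2) = (K : ℂ) * ph d t := by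
    unfold ph
    push_cast
    ring
  have e2 : ((K : ℂ) * ph d t * c).re = K * (ph d t * c).re := by
    rw [mul_assoc]
    have : (K : ℂ) = ((K : ℝ) : ℂ) := by push_cast; rfl
    rw [this, Complex.re_ofReal_mul]
  rw [e1, e2] at key
  have hK' : (0 : ℝ) < K := by exact_mod_cast hK
  have h4 : 0 ≤ (K : ℝ) * (p0 + 2 * (ph d t * c).re) := by
    push_cast at key
    nlinarith
  exact nonneg_of_mul_nonneg_right h4 hK'

end Pool.Agent.Q253.FC
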