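import Pool.Agent.Q253.FC.Geo
import Pool.Agent.Q253.FC.Certs

/-!
# The exact sets of first Fourier coefficients for twelve pairs
-/

set_option autoImplicit false

namespace Pool.Agent.Q253.FC

open MeasureTheory Complex

variable {p q : ℕ}

/-! ### rotations -/

theorem rotN {N : ℕ} [NeZero N] (hp : (p : ZMod N) = 1) (hq : (q : ZMod N) = 1) {c : ℂ}
    (hc : c ∈ coefSet p q) : (ZMod.stdAddChar (1 : ZMod N) : ℂ) * c ∈ coefSet p q := by
  have ht : ∀ p : ℕ, (p : ZMod N) = 1 →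
      p • (ZMod.toAddCircle (1 : ZMod N)) = ZMod.toAddCircle (1 : ZMod N) := by
    intro p hp
    rw [← map_nsmul, nsmul_eq_mul, hp, one_mul]
  have h := coefSet_rot (ht p hp) (ht q hq) hc
  have e : (fourier 1 (ZMod.toAddCircle (1 : ZMod N)) : ℂ) =
      (ZMod.stdAddChar (1 : ZMod N) : ℂ) := by
    rw [fourier_one, ZMod.stdAddChar_apply]
    rfl
  rwa [e] at h

theorem neg_mem (hp : (p : ZMod 2) = 1) (hq : (q : ZMod 2) = 1) {c : ℂ}
    (hc : c ∈ coefSet p q) : -c ∈ coefSet p q := by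
  have h := rotN hp hq hc
  have h1 : (ZMod.stdAddChar (1 : ZMod 2) : ℂ) ^ 2 = 1 := pow_N
  have h2 : (ZMod.stdAddChar (1 : ZMod 2) : ℂ) ^ 1 ≠ 1 := pow_ne (by decide)
  rw [pow_one] at h2
  have h3 : (ZMod.stdAddChar (1 : ZMod 2) : ℂ) = -1 := by
    have h4 : ((ZMod.stdAddChar (1 : ZMod 2) : ℂ) - 1) * ((ZMod.stdAddChar (1 : ZMod 2) : ℂ) + 1)
        = 0 := by linear_combination h1
    rcases mul_eq_zero.1 h4 with h | h
    · exact absurd (sub_eq_zero.1 h) h2
    · linear_combination h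
  rw [h3] at h
  simpa using h

theorem negconj_mem (hp : (p : ZMod 2) = 1) (hq : (q : ZMod 2) = 1) {c : ℂ}
    (hc : c ∈ coefSet p q) : (⟨-c.re, c.im⟩ : ℂ) ∈ coefSet p q := by
  have := neg_mem hp hq (coefSet_conj hc)
  convert this using 1
  apply Complex.ext <;> simp

theorem rot_sq {N : ℕ} [NeZero N] (hp : (p : ZMod N) = 1) (hq : (q : ZMod N) = 1) {c : ℂ}
    (hc : c ∈ coefSet p q) {K J D : ℝ} (hK : 0 < K) (hD : 0 < D)
    (h : ((K : ℂ) * (ZMod.stdAddChar (1 : ZMod N) : ℂ) + J) ^ 2 = -(D : ℂ)) (s : ℝ)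
    (hs : s = 1 ∨ s = -1) : (⟨-J / K, s * (Real.sqrt D / K)⟩ : ℂ) * c ∈ coefSet p q := by
  have r1 := rotN hp hq hc
  have r2 := coefSet_conj (rotN hp hq (coefSet_conj hc))
  rw [map_mul, Complex.conj_conj] at r2
  set z : ℂ := (ZMod.stdAddChar (1 : ZMod N) : ℂ)
  have h1 := congrArg Complex.re h
  have h2 := congrArg Complex.im h
  rw [sq] at h1 h2
  simp only [Complex.mul_re, Complex.add_re, Complex.mul_im, Complex.add_im, Complex.ofReal_re,
    Complex.ofReal_im, Complex.neg_re, Complex.neg_im, zero_mul, sub_zero, add_zero] at h1 h2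
  have h3 : z.im ≠ 0 := by
    intro h0
    rw [h0] at h1
    nlinarith [sq_nonneg (K * z.re + J)]
  have h4 : K * z.re + J = 0 := by
    have h5 : (K * z.re + J) * (2 * K * z.im) = 0 := by linarith
    rcases mul_eq_zero.1 h5 with h6 | h6
    · exact h6
    · exact absurd h6 (mul_ne_zero (by positivity) h3)
  have h5 : z.re = -J / K := by
    field_simp
    linarith
  have h6 : (K * z.im) ^ 2 = D := by
    rw [h4] at h1
    linarith
  have h8 : Real.sqrt D / K = |z.im| := by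
    rw [← h6, Real.sqrt_sq_eq_abs, abs_mul, abs_of_pos hK]
    field_simp
  rw [h8, ← h5]
  have e1 : (⟨z.re, z.im⟩ : ℂ) = z := by apply Complex.ext <;> simp
  have e2 : (⟨z.re, -z.im⟩ : ℂ) = (starRingEnd ℂ) z := by apply Complex.ext <;> simp
  rcases hs with rfl | rfl <;> rcases abs_cases z.im with ⟨h9, -⟩ | ⟨h9, -⟩ <;>
    simp only [h9, one_mul, neg_mul, neg_neg]
  · rw [e1]; exact r1
  · rw [e2]; exact r2
  · rw [e2]; exact r2
  · rw [e1]; exact r1

/-! ### points of the sets -/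

theorem mem_one : (⟨1, 0⟩ : ℂ) ∈ coefSet p q := coefSet_one

theorem mem_neg_one (hp : (p : ZMod 2) = 1) (hq : (q : ZMod 2) = 1) :
    (⟨-1, 0⟩ : ℂ) ∈ coefSet p q := by
  have := neg_mem hp hq coefSet_one
  convert this using 1
  apply Complex.ext <;> simp

theorem mem_half
    (hp : (([1, 2].map (Nat.cast : ℕ → ZMod 3)).toFinset).image (fun a => (p : ZMod 3) * a) =
      ([1, 2].map (Nat.cast : ℕ → ZMod 3)).toFinset)
    (hq : (([1, 2].map (Nat.cast : ℕ → ZMod 3)).toFinset).image (fun a => (q : ZMod 3) * a) =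
      ([1, 2].map (Nat.cast : ℕ → ZMod 3)).toFinset) : (⟨-1 / 2, 0⟩ : ℂ) ∈ coefSet p q := by
  have h := coefSet_list (p := p) (q := q) (N := 3) [1, 2] (by simp) (by decide) hp hq
  have hg := Pool.Agent.Y315.FC.geom_zero (N := 3) (by norm_num)
  simp only [Finset.sum_range_succ, Finset.sum_range_zero, zero_add, pow_zero, pow_one] at hg
  simp only [List.length_cons, List.length_nil, List.map_cons, List.map_nil, List.sum_cons,
    List.sum_nil, pow_one] at h
  convert h using 1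
  set z : ℂ := (ZMod.stdAddChar (1 : ZMod 3) : ℂ)
  have e : (⟨-1 / 2, 0⟩ : ℂ) = -1 / 2 := by
    apply Complex.ext
    · simp
    · simp
  rw [e]
  push_cast
  linear_combination (-1 / 2) * hg

theorem sq3 : (((2 : ℝ) : ℂ) * (ZMod.stdAddChar (1 : ZMod 3) : ℂ) + (1 : ℝ)) ^ 2 =
    -((3 : ℝ) : ℂ) := by
  have hg := Pool.Agent.Y315.FC.geom_zero (N := 3) (by norm_num)
  simp only [Finset.sum_range_succ, Finset.sum_range_zero, zero_add, pow_zero, pow_one] at hg
  push_cast
  linear_combination 4 * hg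

theorem sq6 : (((2 : ℝ) : ℂ) * (ZMod.stdAddChar (1 : ZMod 6) : ℂ) + ((-1 : ℝ) : ℂ)) ^ 2 =
    -((3 : ℝ) : ℂ) := by
  have h1 : (ZMod.stdAddChar (1 : ZMod 6) : ℂ) ^ 6 = 1 := pow_N
  have h2 : (ZMod.stdAddChar (1 : ZMod 6) : ℂ) ^ 3 ≠ 1 := pow_ne (by decide)
  have h3 : (ZMod.stdAddChar (1 : ZMod 6) : ℂ) ^ 2 ≠ 1 := pow_ne (by decide)
  set z : ℂ := (ZMod.stdAddChar (1 : ZMod 6) : ℂ)
  have h4 : (z ^ 3 - 1) * (z ^ 3 + 1) = 0 := by linear_combination h1
  have h5 : z ^ 3 + 1 = 0 := by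
    rcases mul_eq_zero.1 h4 with h | h
    · exact absurd (sub_eq_zero.1 h) h2
    · exact h
  have h6 : (z + 1) * (z ^ 2 - z + 1) = 0 := by linear_combination h5
  have h7 : z ^ 2 - z + 1 = 0 := by
    rcases mul_eq_zero.1 h6 with h | h
    · exfalso
      apply h3
      have : z = -1 := by linear_combination h
      rw [this]
      ring
    · exact h
  push_cast
  linear_combination 4 * h7

theorem mem3 (hp : (p : ZMod 3) = 1) (hq : (q : ZMod 3) = 1) :
    (⟨-1 / 2, Real.sqrt 3 / 2⟩ : ℂ) ∈ coefSet p q := by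
  have h := rotN hp hq coefSet_one
  rw [mul_one] at h
  exact mem_of_sq h (by norm_num) (by norm_num) sq3

theorem mem4 (hp : (p : ZMod 4) = 1) (hq : (q : ZMod 4) = 1) : (⟨0, 1⟩ : ℂ) ∈ coefSet p q := by
  have h := rotN hp hq coefSet_one
  rw [mul_one] at h
  have h1 : (ZMod.stdAddChar (1 : ZMod 4) : ℂ) ^ 4 = 1 := pow_N
  have h2 : (ZMod.stdAddChar (1 : ZMod 4) : ℂ) ^ 2 ≠ 1 := pow_ne (by decide)
  set z : ℂ := (ZMod.stdAddChar (1 : ZMod 4) : ℂ)
  have h4 : (z ^ 2 - 1) * (z ^ 2 + 1) = 0 := by linear_combination h1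
  have h5 : z ^ 2 + 1 = 0 := by
    rcases mul_eq_zero.1 h4 with h | h
    · exact absurd (sub_eq_zero.1 h) h2
    · exact h
  have h6 := mem_of_sq h (K := 1) (J := 0) (D := 1) (by norm_num) (by norm_num) (by
    push_cast
    linear_combination h5)
  simpa using h6

theorem mem7
    (hp : (([1, 2, 4].map (Nat.cast : ℕ → ZMod 7)).toFinset).image (fun a => (p : ZMod 7) * a) =
      ([1, 2, 4].map (Nat.cast : ℕ → ZMod 7)).toFinset)
    (hq : (([1, 2, 4].map (Nat.cast : ℕ → ZMod 7)).toFinset).image (fun a => (q : ZMod 7) * a) =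
      ([1, 2, 4].map (Nat.cast : ℕ → ZMod 7)).toFinset) :
    (⟨-1 / 6, Real.sqrt 7 / 6⟩ : ℂ) ∈ coefSet p q := by
  have h := coefSet_list (p := p) (q := q) (N := 7) [1, 2, 4] (by simp) (by decide) hp hq
  have hg := Pool.Agent.Y315.FC.geom_zero (N := 7) (by norm_num)
  simp only [Finset.sum_range_succ, Finset.sum_range_zero, zero_add, pow_zero, pow_one] at hg
  simp only [List.length_cons, List.length_nil, List.map_cons, List.map_nil, List.sum_cons,
    List.sum_nil, pow_one] at h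
  refine mem_of_sq h (by norm_num) (by norm_num) ?_
  set z : ℂ := (ZMod.stdAddChar (1 : ZMod 7) : ℂ)
  push_cast
  linear_combination (8 - 4 * z + 4 * z ^ 2) * hg

theorem mem11
    (hp : (([1, 3, 4, 5, 9].map (Nat.cast : ℕ → ZMod 11)).toFinset).image
      (fun a => (p : ZMod 11) * a) = ([1, 3, 4, 5, 9].map (Nat.cast : ℕ → ZMod 11)).toFinset)
    (hq : (([1, 3, 4, 5, 9].map (Nat.cast : ℕ → ZMod 11)).toFinset).image
      (fun a => (q : ZMod 11) * a) = ([1, 3, 4, 5, 9].map (Nat.cast : ℕ → ZMod 11)).toFinset) :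
    (⟨-1 / 10, Real.sqrt 11 / 10⟩ : ℂ) ∈ coefSet p q := by
  have h := coefSet_list (p := p) (q := q) (N := 11) [1, 3, 4, 5, 9] (by simp) (by decide) hp hq
  have hg := Pool.Agent.Y315.FC.geom_zero (N := 11) (by norm_num)
  simp only [Finset.sum_range_succ, Finset.sum_range_zero, zero_add, pow_zero, pow_one] at hg
  simp only [List.length_cons, List.length_nil, List.map_cons, List.map_nil, List.sum_cons,
    List.sum_nil, pow_one] at h
  refine mem_of_sq h (by norm_num) (by norm_num) ?_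
  set z : ℂ := (ZMod.stdAddChar (1 : ZMod 11) : ℂ)
  push_cast
  linear_combination 4 * (3 - 2 * z + 2 * z ^ 4 - z ^ 7 + z ^ 8) * hg

theorem mem20
    (hp : (([1, 3, 7, 9].map (Nat.cast : ℕ → ZMod 20)).toFinset).image
      (fun a => (p : ZMod 20) * a) = ([1, 3, 7, 9].map (Nat.cast : ℕ → ZMod 20)).toFinset)
    (hq : (([1, 3, 7, 9].map (Nat.cast : ℕ → ZMod 20)).toFinset).image
      (fun a => (q : ZMod 20) * a) = ([1, 3, 7, 9].map (Nat.cast : ℕ → ZMod 20)).toFinset) :
    (⟨0, Real.sqrt 5 / 4⟩ : ℂ) ∈ coefSet p q := by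
  have h := coefSet_list (p := p) (q := q) (N := 20) [1, 3, 7, 9] (by simp) (by decide) hp hq
  simp only [List.length_cons, List.length_nil, List.map_cons, List.map_nil, List.sum_cons,
    List.sum_nil, pow_one] at h
  have h1 : (ZMod.stdAddChar (1 : ZMod 20) : ℂ) ^ 20 = 1 := pow_N
  have h2 : (ZMod.stdAddChar (1 : ZMod 20) : ℂ) ^ 10 ≠ 1 := pow_ne (by decide)
  have h3 : (ZMod.stdAddChar (1 : ZMod 20) : ℂ) ^ 4 ≠ 1 := pow_ne (by decide)
  have key : ∀ z : ℂ, z ^ 20 = 1 → z ^ 10 ≠ 1 → z ^ 4 ≠ 1 →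
      z ^ 8 - z ^ 6 + z ^ 4 - z ^ 2 + 1 = 0 := by
    intro z h1 h2 h3
    have h4 : (z ^ 10 - 1) * (z ^ 10 + 1) = 0 := by linear_combination h1
    have h5 : z ^ 10 + 1 = 0 := by
      rcases mul_eq_zero.1 h4 with h | h
      · exact absurd (sub_eq_zero.1 h) h2
      · exact h
    have h6 : (z ^ 2 + 1) * (z ^ 8 - z ^ 6 + z ^ 4 - z ^ 2 + 1) = 0 := by linear_combination h5
    rcases mul_eq_zero.1 h6 with h | h
    · exact absurd (by linear_combination (z ^ 2 - 1) * h) h3
    · exact h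
  have hk := key _ h1 h2 h3
  have h7 := mem_of_sq h (K := 4) (J := 0) (D := 5) (by norm_num) (by norm_num) (by
    set z : ℂ := (ZMod.stdAddChar (1 : ZMod 20) : ℂ)
    push_cast
    linear_combination (5 + 6 * z ^ 2 + 3 * z ^ 4 + 3 * z ^ 6 + 3 * z ^ 8 + z ^ 10) * hk)
  simpa using h7

theorem mem24
    (hp : (([1, 5, 7, 11].map (Nat.cast : ℕ → ZMod 24)).toFinset).image
      (fun a => (p : ZMod 24) * a) = ([1, 5, 7, 11].map (Nat.cast : ℕ → ZMod 24)).toFinset)
    (hq : (([1, 5, 7, 11].map (Nat.cast : ℕ → ZMod 24)).toFinset).image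
      (fun a => (q : ZMod 24) * a) = ([1, 5, 7, 11].map (Nat.cast : ℕ → ZMod 24)).toFinset) :
    (⟨0, Real.sqrt 6 / 4⟩ : ℂ) ∈ coefSet p q := by
  have h := coefSet_list (p := p) (q := q) (N := 24) [1, 5, 7, 11] (by simp) (by decide) hp hq
  simp only [List.length_cons, List.length_nil, List.map_cons, List.map_nil, List.sum_cons,
    List.sum_nil, pow_one] at h
  have h1 : (ZMod.stdAddChar (1 : ZMod 24) : ℂ) ^ 24 = 1 := pow_N
  have h2 : (ZMod.stdAddChar (1 : ZMod 24) : ℂ) ^ 12 ≠ 1 := pow_ne (by decide)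
  have h3 : (ZMod.stdAddChar (1 : ZMod 24) : ℂ) ^ 8 ≠ 1 := pow_ne (by decide)
  have key : ∀ z : ℂ, z ^ 24 = 1 → z ^ 12 ≠ 1 → z ^ 8 ≠ 1 → z ^ 8 - z ^ 4 + 1 = 0 := by
    intro z h1 h2 h3
    have h4 : (z ^ 12 - 1) * (z ^ 12 + 1) = 0 := by linear_combination h1
    have h5 : z ^ 12 + 1 = 0 := by
      rcases mul_eq_zero.1 h4 with h | h
      · exact absurd (sub_eq_zero.1 h) h2
      · exact h
    have h6 : (z ^ 4 + 1) * (z ^ 8 - z ^ 4 + 1) = 0 := by linear_combination h5
    rcases mul_eq_zero.1 h6 with h | h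
    · exact absurd (by linear_combination (z ^ 4 - 1) * h) h3
    · exact h
  have hk := key _ h1 h2 h3
  have h7 := mem_of_sq h (K := 4) (J := 0) (D := 6) (by norm_num) (by norm_num) (by
    set z : ℂ := (ZMod.stdAddChar (1 : ZMod 24) : ℂ)
    push_cast
    linear_combination (6 + z ^ 2 + 6 * z ^ 4 + 3 * z ^ 6 + 2 * z ^ 8 + 3 * z ^ 10 + z ^ 14) * hk)
  simpa using h7

theorem mem8
    (hp : (([1, 3].map (Nat.cast : ℕ → ZMod 8)).toFinset).image
      (fun a => (p : ZMod 8) * a) = ([1, 3].map (Nat.cast : ℕ → ZMod 8)).toFinset)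
    (hq : (([1, 3].map (Nat.cast : ℕ → ZMod 8)).toFinset).image
      (fun a => (q : ZMod 8) * a) = ([1, 3].map (Nat.cast : ℕ → ZMod 8)).toFinset) :
    (⟨0, Real.sqrt 2 / 2⟩ : ℂ) ∈ coefSet p q := by
  have h := coefSet_list (p := p) (q := q) (N := 8) [1, 3] (by simp) (by decide) hp hq
  simp only [List.length_cons, List.length_nil, List.map_cons, List.map_nil, List.sum_cons,
    List.sum_nil, pow_one] at h
  have h1 : (ZMod.stdAddChar (1 : ZMod 8) : ℂ) ^ 8 = 1 := pow_N
  have h2 : (ZMod.stdAddChar (1 : ZMod 8) : ℂ) ^ 4 ≠ 1 := pow_ne (by decide)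
  have key : ∀ z : ℂ, z ^ 8 = 1 → z ^ 4 ≠ 1 → z ^ 4 + 1 = 0 := by
    intro z h1 h2
    have h4 : (z ^ 4 - 1) * (z ^ 4 + 1) = 0 := by linear_combination h1
    rcases mul_eq_zero.1 h4 with h | h
    · exact absurd (sub_eq_zero.1 h) h2
    · exact h
  have hk := key _ h1 h2
  have h7 := mem_of_sq h (K := 2) (J := 0) (D := 2) (by norm_num) (by norm_num) (by
    set z : ℂ := (ZMod.stdAddChar (1 : ZMod 8) : ℂ)
    push_cast
    linear_combination (2 + z ^ 2) * hk)
  simpa using h7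

/-! ### the twelve sets -/

theorem mulS {s a b g d x y : ℝ} (hs0 : 0 ≤ s) (hs : s * s = d)
    (h : 0 ≤ a + b * x - g * s * y) : 0 ≤ a * s + b * (s * x) - g * d * y := by
  have h1 := mul_nonneg hs0 h
  have h2 : s * (a + b * x - g * s * y) = a * s + b * (s * x) - g * (s * s) * y := by ring
  rw [h2, hs] at h1
  exact h1

theorem ss (d : ℕ) : Real.sqrt d * Real.sqrt d = d := Real.mul_self_sqrt (Nat.cast_nonneg d)

theorem set211 : coefSet 2 11 = hexagon (-1 / 2) 1 (-1 / 6) (-1 / 6) (Real.sqrt 7 / 6) := by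
  have hs : Real.sqrt 7 * Real.sqrt 7 = 7 := Real.mul_self_sqrt (by norm_num)
  have hs0 : 0 < Real.sqrt 7 := Real.sqrt_pos.2 (by norm_num)
  refine coefSet_eq (by positivity) (mem_half (by decide) (by decide)) mem_one
    (mem7 (by decide) (by decide)) (mem7 (by decide) (by decide)) fun c hc => ?_
  have hA := coefSet_ineq ok211A hc
  have hB := coefSet_ineq ok211B hc
  push_cast at hA hB
  have hA' := mulS (a := 7) (b := 14) (g := 4) (x := c.re) (y := c.im) hs0.le hs (by linarith)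
  have hB' := mulS (a := 1) (b := -1) (g := 1) (x := c.re) (y := c.im) hs0.le hs (by linarith)
  refine ⟨?_, ?_, ?_⟩ <;> linarith

theorem set35 : coefSet 3 5 = hexagon (-1) 1 (-1 / 10) (1 / 10) (Real.sqrt 11 / 10) := by
  have hs : Real.sqrt 11 * Real.sqrt 11 = 11 := Real.mul_self_sqrt (by norm_num)
  have hs0 : 0 < Real.sqrt 11 := Real.sqrt_pos.2 (by norm_num)
  have hm : (⟨-1 / 10, Real.sqrt 11 / 10⟩ : ℂ) ∈ coefSet 3 5 := mem11 (by decide) (by decide)
  have hn : (⟨1 / 10, Real.sqrt 11 / 10⟩ : ℂ) ∈ coefSet 3 5 := by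
    have := negconj_mem (by decide) (by decide) hm
    norm_num at this ⊢
    exact this
  refine coefSet_eq (by positivity) (mem_neg_one (by decide) (by decide)) mem_one hm hn
    fun c hc => ?_
  have hA := coefSet_ineq ok35A hc
  have hA2 := coefSet_ineq ok35A (negconj_mem (by decide) (by decide) hc)
  have hB := coefSet_ineq ok35B hc
  push_cast at hA hA2 hB
  have hA' := mulS (a := 11) (b := -11) (g := 9) (x := c.re) (y := c.im) hs0.le hs (by linarith)
  have hA2' := mulS (a := 11) (b := 11) (g := 9) (x := c.re) (y := c.im) hs0.le hs (by linarith)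
  have hB' := mulS (a := 11) (b := 0) (g := 10) (x := c.re) (y := c.im) hs0.le hs (by linarith)
  refine ⟨?_, ?_, ?_⟩ <;> linarith

theorem set37 : coefSet 3 7 = hexagon (-1) 1 0 0 (Real.sqrt 5 / 4) := by
  have hs : Real.sqrt 5 * Real.sqrt 5 = 5 := Real.mul_self_sqrt (by norm_num)
  have hs0 : 0 < Real.sqrt 5 := Real.sqrt_pos.2 (by norm_num)
  refine coefSet_eq (by positivity) (mem_neg_one (by decide) (by decide)) mem_one
    (mem20 (by decide) (by decide)) (mem20 (by decide) (by decide)) fun c hc => ?_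
  have hA := coefSet_ineq ok37 hc
  have hA2 := coefSet_ineq ok37 (negconj_mem (by decide) (by decide) hc)
  push_cast at hA hA2
  have hA' := mulS (a := 5) (b := -5) (g := 4) (x := c.re) (y := c.im) hs0.le hs (by linarith)
  have hA2' := mulS (a := 5) (b := 5) (g := 4) (x := c.re) (y := c.im) hs0.le hs (by linarith)
  refine ⟨?_, ?_, ?_⟩ <;> linarith

theorem set311 : coefSet 3 11 = hexagon (-1) 1 0 0 (Real.sqrt 2 / 2) := by
  have hs : Real.sqrt 2 * Real.sqrt 2 = 2 := Real.mul_self_sqrt (by norm_num)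
  have hs0 : 0 < Real.sqrt 2 := Real.sqrt_pos.2 (by norm_num)
  refine coefSet_eq (by positivity) (mem_neg_one (by decide) (by decide)) mem_one
    (mem8 (by decide) (by decide)) (mem8 (by decide) (by decide)) fun c hc => ?_
  have hA := coefSet_ineq ok311 hc
  have hA2 := coefSet_ineq ok311 (negconj_mem (by decide) (by decide) hc)
  push_cast at hA hA2
  have hA' := mulS (a := 1) (b := -1) (g := 1) (x := c.re) (y := c.im) hs0.le hs (by linarith)
  have hA2' := mulS (a := 1) (b := 1) (g := 1) (x := c.re) (y := c.im) hs0.le hs (by linarith)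
  refine ⟨?_, ?_, ?_⟩ <;> linarith

theorem set317 : coefSet 3 17 = hexagon (-1) 1 0 0 (Real.sqrt 2 / 2) := by
  have hs : Real.sqrt 2 * Real.sqrt 2 = 2 := Real.mul_self_sqrt (by norm_num)
  have hs0 : 0 < Real.sqrt 2 := Real.sqrt_pos.2 (by norm_num)
  refine coefSet_eq (by positivity) (mem_neg_one (by decide) (by decide)) mem_one
    (mem8 (by decide) (by decide)) (mem8 (by decide) (by decide)) fun c hc => ?_
  have hA := coefSet_ineq ok317 hc
  have hA2 := coefSet_ineq ok317 (negconj_mem (by decide) (by decide) hc)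
  push_cast at hA hA2
  have hA' := mulS (a := 1) (b := -1) (g := 1) (x := c.re) (y := c.im) hs0.le hs (by linarith)
  have hA2' := mulS (a := 1) (b := 1) (g := 1) (x := c.re) (y := c.im) hs0.le hs (by linarith)
  refine ⟨?_, ?_, ?_⟩ <;> linarith

theorem set47 : coefSet 4 7 = hexagon (-1 / 2) 1 (-1 / 2) (-1 / 2) (Real.sqrt 3 / 2) := by
  have hs : Real.sqrt 3 * Real.sqrt 3 = 3 := Real.mul_self_sqrt (by norm_num)
  have hs0 : 0 < Real.sqrt 3 := Real.sqrt_pos.2 (by norm_num)
  refine coefSet_eq (by positivity) (mem_half (by decide) (by decide)) mem_one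
    (mem3 (by decide) (by decide)) (mem3 (by decide) (by decide)) fun c hc => ?_
  have hA := coefSet_ineq ok47 hc
  have hr := rot_sq (N := 3) (by decide) (by decide) hc (by norm_num) (by norm_num) sq3 1
    (Or.inl rfl)
  have hA2 := coefSet_ineq ok47 hr
  simp only [Complex.mul_re, Complex.mul_im] at hA2
  push_cast at hA hA2
  have hA' := mulS (a := 1) (b := 2) (g := 0) (x := c.re) (y := c.im) hs0.le hs (by linarith)
  have hA2' := mulS (a := 1) (b := -1) (g := 1) (x := c.re) (y := c.im) hs0.le hs (by linarith)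
  refine ⟨?_, ?_, ?_⟩ <;> linarith

theorem set57 : coefSet 5 7 = hexagon (-1) 1 0 0 (Real.sqrt 6 / 4) := by
  have hs : Real.sqrt 6 * Real.sqrt 6 = 6 := Real.mul_self_sqrt (by norm_num)
  have hs0 : 0 < Real.sqrt 6 := Real.sqrt_pos.2 (by norm_num)
  refine coefSet_eq (by positivity) (mem_neg_one (by decide) (by decide)) mem_one
    (mem24 (by decide) (by decide)) (mem24 (by decide) (by decide)) fun c hc => ?_
  have hA := coefSet_ineq ok57 hc
  have hA2 := coefSet_ineq ok57 (negconj_mem (by decide) (by decide) hc)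
  push_cast at hA hA2
  have hA' := mulS (a := 3) (b := -3) (g := 2) (x := c.re) (y := c.im) hs0.le hs (by linarith)
  have hA2' := mulS (a := 3) (b := 3) (g := 2) (x := c.re) (y := c.im) hs0.le hs (by linarith)
  refine ⟨?_, ?_, ?_⟩ <;> linarith

theorem set_square (hp : (p : ZMod 4) = 1) (hq : (q : ZMod 4) = 1) (hp2 : (p : ZMod 2) = 1)
    (hq2 : (q : ZMod 2) = 1)
    (h : ∀ c ∈ coefSet p q, 0 ≤ (2 : ℝ) + 2 * (-1 * c.re - 1 * Real.sqrt ((1 : ℕ) : ℝ) * c.im)) :
    coefSet p q = hexagon (-1) 1 0 0 1 := by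
  refine coefSet_eq (by positivity) (mem_neg_one hp2 hq2) mem_one (mem4 hp hq) (mem4 hp hq)
    fun c hc => ?_
  have hA := h c hc
  have hA2 := h _ (negconj_mem hp2 hq2 hc)
  rw [Nat.cast_one, Real.sqrt_one] at hA hA2
  simp only at hA2
  refine ⟨?_, ?_, ?_⟩ <;> linarith

theorem set59 : coefSet 5 9 = hexagon (-1) 1 0 0 1 :=
  set_square (by decide) (by decide) (by decide) (by decide) fun c hc => by
    have := coefSet_ineq ok59 hc
    push_cast at this ⊢
    exact this

theorem set513 : coefSet 5 13 = hexagon (-1) 1 0 0 1 :=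
  set_square (by decide) (by decide) (by decide) (by decide) fun c hc => by
    have := coefSet_ineq ok513 hc
    push_cast at this ⊢
    exact this

theorem set517 : coefSet 5 17 = hexagon (-1) 1 0 0 1 :=
  set_square (by decide) (by decide) (by decide) (by decide) fun c hc => by
    have := coefSet_ineq ok517 hc
    push_cast at this ⊢
    exact this

theorem set913 : coefSet 9 13 = hexagon (-1) 1 0 0 1 :=
  set_square (by decide) (by decide) (by decide) (by decide) fun c hc => by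
    have := coefSet_ineq ok913 hc
    push_cast at this ⊢
    exact this

theorem set713 : coefSet 7 13 = hexagon (-1) 1 (-1 / 2) (1 / 2) (Real.sqrt 3 / 2) := by
  have hs : Real.sqrt 3 * Real.sqrt 3 = 3 := Real.mul_self_sqrt (by norm_num)
  have hs0 : 0 < Real.sqrt 3 := Real.sqrt_pos.2 (by norm_num)
  have hm : (⟨-1 / 2, Real.sqrt 3 / 2⟩ : ℂ) ∈ coefSet 7 13 := mem3 (by decide) (by decide)
  have hn : (⟨1 / 2, Real.sqrt 3 / 2⟩ : ℂ) ∈ coefSet 7 13 := by
    have := negconj_mem (by decide) (by decide) hm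
    norm_num at this ⊢
    exact this
  refine coefSet_eq (by positivity) (mem_neg_one (by decide) (by decide)) mem_one hm hn
    fun c hc => ?_
  have hA := coefSet_ineq ok713 hc
  have hA2 := coefSet_ineq ok713 (negconj_mem (by decide) (by decide) hc)
  have hr := rot_sq (N := 6) (by decide) (by decide) hc (by norm_num) (by norm_num) sq6 (-1)
    (Or.inr rfl)
  have hB := coefSet_ineq ok713 hr
  simp only [Complex.mul_re, Complex.mul_im] at hB
  push_cast at hA hA2 hB
  have hA' := mulS (a := 3) (b := -3) (g := 1) (x := c.re) (y := c.im) hs0.le hs (by linarith)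
  have hA2' := mulS (a := 3) (b := 3) (g := 1) (x := c.re) (y := c.im) hs0.le hs (by linarith)
  have e1 : Real.sqrt 3 * (Real.sqrt 3 * c.re) = 3 * c.re := by rw [← mul_assoc, hs]
  have hB' := mulS (a := 3) (b := 0) (g := 2) (x := c.re) (y := c.im) hs0.le hs (by nlinarith)
  refine ⟨?_, ?_, ?_⟩ <;> linarith

end Pool.Agent.Q253.FC
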