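import Pool.Agent.Q253.FC.Int
import Pool.Agent.Y315.FC.Orb

/-!
# The set of the first Fourier coefficients of all `×p`, `×q` invariant probability measures
-/

set_option autoImplicit false

namespace Pool.Agent.Q253.FC

open MeasureTheory Complex
open scoped ENNReal

/-- The set of the first Fourier coefficients `∫ e(x) dμ(x)` of all probability measures `μ` on the
circle `R/Z` which are invariant under `x ↦ p x` and `x ↦ q x`. -/
def coefSet (p q : ℕ) : Set ℂ :=
  {c | ∃ μ : Measure UnitAddCircle, IsProbabilityMeasure μ ∧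
    MeasurePreserving (fun x : UnitAddCircle => p • x) μ μ ∧
    MeasurePreserving (fun x : UnitAddCircle => q • x) μ μ ∧
    ∫ x, (fourier 1 x : ℂ) ∂μ = c}

variable {p q : ℕ}

theorem coefSet_ineq {d r n : ℕ} {G S E : List (ℤ × ℤ)} {e0 p0 : ℤ} {t : ℤ × ℤ} {K : ℤ}
    (h : ok p q d r n G S E e0 p0 t K = true) {c : ℂ} (hc : c ∈ coefSet p q) :
    0 ≤ p0 + 2 * (t.1 * c.re - t.2 * Real.sqrt d * c.im) := by
  obtain ⟨μ, hμ, h2, h3, rfl⟩ := hc
  have h1 := ineq h h2 h3
  convert h1 using 3
  unfold ph
  simp only [Complex.mul_re, Complex.add_re, Complex.add_im, Complex.intCast_re,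
    Complex.intCast_im, Complex.mul_im, Complex.ofReal_re, Complex.ofReal_im, Complex.I_re,
    Complex.I_im]
  ring

theorem coefSet_convex : Convex ℝ (coefSet p q) := by
  rintro _ ⟨μ, hμ, h2, h3, rfl⟩ _ ⟨ν, hν, k2, k3, rfl⟩ a b ha hb hab
  refine ⟨ENNReal.ofReal a • μ + ENNReal.ofReal b • ν, ?_, ?_, ?_, ?_⟩
  · constructor
    simp only [Measure.coe_add, Measure.coe_smul, Pi.add_apply, Pi.smul_apply, measure_univ,
      smul_eq_mul, mul_one]
    rw [← ENNReal.ofReal_add ha hb, hab, ENNReal.ofReal_one]
  · exact (h2.smul_measure _).add_measure (k2.smul_measure _)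
  · exact (h3.smul_measure _).add_measure (k3.smul_measure _)
  · rw [integral_add_measure, integral_smul_measure, integral_smul_measure,
      ENNReal.toReal_ofReal ha, ENNReal.toReal_ofReal hb]
    · exact (int_c (map_continuous _)).smul_measure ENNReal.ofReal_ne_top
    · exact (int_c (map_continuous _)).smul_measure ENNReal.ofReal_ne_top

theorem coefSet_conj {c : ℂ} (hc : c ∈ coefSet p q) : (starRingEnd ℂ) c ∈ coefSet p q := by
  obtain ⟨μ, hμ, h2, h3, rfl⟩ := hc
  exact ⟨μ.map fun x => -x, Measure.isProbabilityMeasure_map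
    continuous_neg.measurable.aemeasurable, Pool.Agent.Y315.FC.neg_mp h2,
    Pool.Agent.Y315.FC.neg_mp h3, Pool.Agent.Y315.FC.neg_co μ⟩

/-- All Fourier coefficients of invariant measures are first coefficients of invariant measures. -/
theorem coef_mem {μ : Measure UnitAddCircle} [IsProbabilityMeasure μ]
    (h2 : MeasurePreserving (fun x : UnitAddCircle => p • x) μ μ)
    (h3 : MeasurePreserving (fun x : UnitAddCircle => q • x) μ μ) (m : ℤ) :
    ∫ x, (fourier m x : ℂ) ∂μ ∈ coefSet p q := by
  have hm : Measurable (fun x : UnitAddCircle => m • x) := (continuous_zsmul m).measurable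
  have hmp : ∀ p : ℕ, MeasurePreserving (fun x : UnitAddCircle => p • x) μ μ →
      MeasurePreserving (fun x : UnitAddCircle => p • x) (μ.map fun x => m • x)
        (μ.map fun x => m • x) := by
    intro p h
    refine ⟨h.measurable, ?_⟩
    rw [Measure.map_map h.measurable hm]
    have : ((fun x : UnitAddCircle => p • x) ∘ fun x => m • x) =
        (fun x => m • x) ∘ fun x : UnitAddCircle => p • x := by
      funext x
      simp only [Function.comp]
      rw [smul_comm]
    rw [this, ← Measure.map_map hm h.measurable, h.map_eq]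
  refine ⟨μ.map fun x => m • x, Measure.isProbabilityMeasure_map hm.aemeasurable, hmp p h2,
    hmp q h3, ?_⟩
  rw [integral_map hm.aemeasurable (map_continuous _).aestronglyMeasurable]
  refine integral_congr_ae (Filter.Eventually.of_forall fun x => ?_)
  simp only [fourier_apply, one_smul]

/-- rotation by a common fixed point -/
theorem coefSet_rot {t : UnitAddCircle} (hp : p • t = t) (hq : q • t = t) {c : ℂ}
    (hc : c ∈ coefSet p q) : (fourier 1 t : ℂ) * c ∈ coefSet p q := by
  obtain ⟨μ, hμ, h2, h3, rfl⟩ := hc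
  have hm : Measurable (fun x : UnitAddCircle => t + x) := (continuous_const_add t).measurable
  have hmp : ∀ p : ℕ, p • t = t → MeasurePreserving (fun x : UnitAddCircle => p • x) μ μ →
      MeasurePreserving (fun x : UnitAddCircle => p • x) (μ.map fun x => t + x)
        (μ.map fun x => t + x) := by
    intro p hp h
    refine ⟨h.measurable, ?_⟩
    rw [Measure.map_map h.measurable hm]
    have : ((fun x : UnitAddCircle => p • x) ∘ fun x => t + x) =
        (fun x => t + x) ∘ fun x : UnitAddCircle => p • x := by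
      funext x
      simp only [Function.comp, smul_add, hp]
    rw [this, ← Measure.map_map hm h.measurable, h.map_eq]
  refine ⟨μ.map fun x => t + x, Measure.isProbabilityMeasure_map hm.aemeasurable, hmp p hp h2,
    hmp q hq h3, ?_⟩
  rw [integral_map hm.aemeasurable (map_continuous _).aestronglyMeasurable, ← integral_const_mul]
  refine integral_congr_ae (Filter.Eventually.of_forall fun x => ?_)
  simp only [fourier_one]
  rw [AddCircle.toCircle_add]
  simp

/-- a common fixed point -/
theorem coefSet_fix {t : UnitAddCircle} (hp : p • t = t) (hq : q • t = t) :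
    (fourier 1 t : ℂ) ∈ coefSet p q := by
  have hmp : ∀ p : ℕ, p • t = t → MeasurePreserving (fun x : UnitAddCircle => p • x)
      (Measure.dirac t) (Measure.dirac t) := by
    intro p hp
    have hm : Measurable (fun x : UnitAddCircle => p • x) := (continuous_nsmul p).measurable
    refine ⟨hm, ?_⟩
    rw [Measure.map_dirac' hm, hp]
  refine ⟨Measure.dirac t, inferInstance, hmp p hp, hmp q hq, ?_⟩
  rw [integral_dirac]

theorem coefSet_one : (1 : ℂ) ∈ coefSet p q := by
  have h := coefSet_fix (p := p) (q := q) (t := 0) (smul_zero _) (smul_zero _)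
  have e : (fourier 1 (0 : UnitAddCircle) : ℂ) = 1 := by simp
  rwa [e] at h

/-- a uniform measure on an orbit -/
theorem coefSet_orb {N : ℕ} [NeZero N] {S : Finset (ZMod N)} (hS : S.Nonempty)
    (hp : S.image (fun a => (p : ZMod N) * a) = S) (hq : S.image (fun a => (q : ZMod N) * a) = S) :
    (S.card : ℂ)⁻¹ * ∑ a ∈ S, (ZMod.stdAddChar a : ℂ) ∈ coefSet p q :=
  ⟨Pool.Agent.Y315.FC.orb S, Pool.Agent.Y315.FC.orb_prob hS, Pool.Agent.Y315.FC.orb_mp p hp,
    Pool.Agent.Y315.FC.orb_mp q hq, Pool.Agent.Y315.FC.orb_co S⟩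

end Pool.Agent.Q253.FC
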